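import Pool.Agent.N587.OT.Main

set_option autoImplicit false

/-!
Words which encode instances with different values differ in many symbols.
-/

namespace Pool.Agent.N587.OT

open Finset

open scoped Classical

/-- If many symbols of `a` and few symbols of `b` encode a constraint with the property `P`, then
`a` and `b` differ in many places. -/
theorem differ {m : ℕ} {S A : Type} (a b : Fin m → S) (dec : S → Option A) (P : A → Prop)
    {u v : ℝ} (ha : u ≤ ((univ.filter fun i => ∃ c, dec (a i) = some c ∧ P c).card : ℝ))
    (hb : ((univ.filter fun i => ∃ c, dec (b i) = some c ∧ P c).card : ℝ) ≤ v) :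
    u - v ≤ ((univ.filter fun i => a i ≠ b i).card : ℝ) := by
  have h1 : (univ.filter fun i => ∃ c, dec (a i) = some c ∧ P c) ⊆
      (univ.filter fun i => ∃ c, dec (b i) = some c ∧ P c) ∪ univ.filter fun i => a i ≠ b i := by
    intro i hi
    rw [mem_filter] at hi
    rw [mem_union, mem_filter, mem_filter]
    by_cases h : a i = b i
    · left
      rw [← h]
      exact hi
    · right
      exact ⟨mem_univ _, h⟩
  have h2 : ((univ.filter fun i => ∃ c, dec (a i) = some c ∧ P c).card : ℝ) ≤
      ((univ.filter fun i => ∃ c, dec (b i) = some c ∧ P c).card : ℝ) +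
      ((univ.filter fun i => a i ≠ b i).card : ℝ) := by
    exact_mod_cast (card_le_card h1).trans (card_union_le _ _)
  linarith

end Pool.Agent.N587.OT
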