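import Mathlib

set_option autoImplicit false

/-!
# Oracle circuits of constant depth: definitions
-/

namespace Pool.Agent.N587.OT

open Finset

/-- The nodes of a circuit with `n` inputs and `s` gates. -/
abbrev Node (n s : ℕ) : Type := Fin n ⊕ Fin s

/-- Gates: AND and OR gates of unbounded fan-in, NOT gates, and oracle gates `ask m w`, which ask
the oracle the word of the `m` symbols `w i`, each of which consists of `l` bits. -/
inductive Gate (n s l : ℕ) : Type
  | and : Finset (Node n s) → Gate n s l
  | or : Finset (Node n s) → Gate n s l
  | not : Node n s → Gate n s l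
  | ask : (m : ℕ) → (Fin m → Fin l → Node n s) → Gate n s l

variable {n s l d : ℕ}

/-- the nodes read by a gate -/
def Gate.reads : Gate n s l → Set (Node n s)
  | .and S => {u | u ∈ S}
  | .or S => {u | u ∈ S}
  | .not u => {u}
  | .ask _ w => {u | ∃ i b, w i b = u}

/-- Oracle circuits with `n` inputs, `s` gates and depth at most `d`: every gate has a level
smaller than `d`, and it reads only inputs and gates of smaller levels. -/
structure OCircuit (n s l d : ℕ) where
  gate : Fin s → Gate n s l
  level : Fin s → ℕ
  level_lt : ∀ g, level g < d
  acyclic : ∀ g h, Sum.inr h ∈ (gate g).reads → level h < level g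
  out : Node n s

/-- An oracle: for every number `m` and every word of `m` symbols of `l` bits one bit. -/
abbrev Oracle (l : ℕ) : Type := (m : ℕ) → (Fin m → Fin l → Bool) → Bool

/-- `b` is the value of the gate `G` if `x` are the values of the inputs and `v` the values of the
gates. -/
def Gate.Ok (O : Oracle l) (x : Fin n → Bool) (v : Fin s → Bool) (b : Bool) : Gate n s l → Prop
  | .and S => b = true ↔ ∀ u ∈ S, Sum.elim x v u = true
  | .or S => b = true ↔ ∃ u ∈ S, Sum.elim x v u = true
  | .not u => b = !(Sum.elim x v u)
  | .ask m w => b = O m fun i c => Sum.elim x v (w i c)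

/-- `v` are the values of the gates on the input `x` with the oracle `O` (there is exactly one such
`v`, as the circuit is acyclic). -/
def OCircuit.Run (C : OCircuit n s l d) (O : Oracle l) (x : Fin n → Bool) (v : Fin s → Bool) :
    Prop :=
  ∀ g, (C.gate g).Ok O x v (v g)

/-- The promise problem with the yes-instances `Y` and the no-instances `Z` (words of symbols of
`l` bits) is solved by the oracle `O`. -/
def Solves (O : Oracle l) (Y Z : (m : ℕ) → (Fin m → Fin l → Bool) → Prop) : Prop :=
  ∀ m a, (Y m a → O m a = true) ∧ (Z m a → O m a = false)

/-- The circuit computes the parity of its input from every oracle which solves the promise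
problem. -/
def OCircuit.Parity (C : OCircuit n s l d) (Y Z : (m : ℕ) → (Fin m → Fin l → Bool) → Prop) :
    Prop :=
  ∀ O : Oracle l, Solves O Y Z → ∀ (x : Fin n → Bool) (v : Fin s → Bool), C.Run O x v →
    (Sum.elim x v C.out = true ↔ Odd (univ.filter fun i => x i = true).card)

end Pool.Agent.N587.OT
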