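import Pool.Agent.N587.OT.Sem

set_option autoImplicit false
set_option linter.unusedSectionVars false

/-!
Juntas and certificates.
-/

namespace Pool.Agent.N587.OT

open Finset H568R2

open scoped Classical

section gen

variable {I : Type} [Fintype I] [DecidableEq I]

theorem junta_op (op : Bool → Bool → Bool) {a b : ℕ} {f g : (I → Bool) → Bool}
    (hf : Junta a f) (hg : Junta b g) : Junta (a + b) fun y => op (f y) (g y) := by
  obtain ⟨A, hA, hfA⟩ := hf
  obtain ⟨B, hB, hgB⟩ := hg
  refine ⟨A ∪ B, (card_union_le _ _).trans (add_le_add hA hB), ?_⟩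
  intro x y hxy
  show op (f x) (g x) = op (f y) (g y)
  rw [hfA x y fun i hi => hxy i (mem_union_left _ hi),
    hgB x y fun i hi => hxy i (mem_union_right _ hi)]

theorem cert_forall {α : Type} {K : ℕ} (P : α → Prop) (p : α → (I → Bool) → Bool)
    (h : ∀ a, P a → Junta K (p a)) {f : (I → Bool) → Bool}
    (hf : ∀ y, f y = true ↔ ∀ a, P a → p a y = true) : Cert K false f := by
  intro x hx
  have hx' : ¬ ∀ a, P a → p a x = true := by
    rw [← hf, hx]
    simp
  push Not at hx'
  obtain ⟨a, ha, hpa⟩ := hx'
  obtain ⟨A, hA, hy⟩ := (h a ha).cert false x (by simpa using hpa)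
  refine ⟨A, hA, fun y hxy => ?_⟩
  rw [← Bool.not_eq_true, hf]
  intro hall
  have := hall a ha
  rw [hy y hxy] at this
  exact absurd this (by simp)

theorem cert_exists {α : Type} {K : ℕ} (P : α → Prop) (p : α → (I → Bool) → Bool)
    (h : ∀ a, P a → Junta K (p a)) {f : (I → Bool) → Bool}
    (hf : ∀ y, f y = true ↔ ∃ a, P a ∧ p a y = true) : Cert K true f := by
  intro x hx
  obtain ⟨a, ha, hpa⟩ := (hf x).1 hx
  obtain ⟨A, hA, hy⟩ := (h a ha).cert true x hpa
  refine ⟨A, hA, fun y hxy => ?_⟩
  rw [hf]
  exact ⟨a, ha, hy y hxy⟩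

theorem cert_mono {K K' : ℕ} {b : Bool} {f : (I → Bool) → Bool} (h : Cert K b f) (hK : K ≤ K') :
    Cert K' b f := by
  intro x hx
  obtain ⟨A, hA, hy⟩ := h x hx
  exact ⟨A, hA.trans hK, hy⟩

end gen

variable {n s l d : ℕ} {C : OCircuit n s l d}

theorem node_junta {t K : ℕ} (hK : 1 ≤ K) {ρ : Restr (Fin n)} {F : Fin s → (Fin n → Bool) → Bool}
    (hF : ∀ g, C.level g < t → Junta K (F g)) (u : Node n s)
    (hu : ∀ g, u = Sum.inr g → C.level g < t) :
    Junta K fun y => Sum.elim (ov ρ y) (fun h => F h y) u := by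
  cases u with
  | inl i =>
    refine ⟨{i}, by simpa using hK, ?_⟩
    intro x y hxy
    have h1 := hxy i (by simp)
    show ov ρ x i = ov ρ y i
    unfold ov
    rw [h1]
  | inr g => exact hF g (hu g rfl)

theorem read_lt {g : Fin s} {t : ℕ} (hg : C.level g ≤ t) {u : Node n s}
    (hu : u ∈ (C.gate g).reads) : ∀ g', u = Sum.inr g' → C.level g' < t := by
  intro g' h
  have := C.acyclic g g' (h ▸ hu)
  omega

theorem ord_cert {t K : ℕ} (hK : 1 ≤ K) {ρ : Restr (Fin n)} {F : Fin s → (Fin n → Bool) → Bool}
    (hF : ∀ g, C.level g < t → Junta K (F g)) {g : Fin s} (hg : C.level g ≤ t) :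
    ∃ b, Cert K b fun y => ordv (C.gate g) (ov ρ y) fun h => F h y := by
  have key : ∀ u ∈ (C.gate g).reads, Junta K fun y => Sum.elim (ov ρ y) (fun h => F h y) u :=
    fun u hu => node_junta hK hF u (read_lt hg hu)
  cases hG : C.gate g with
  | and S =>
    rw [hG] at key
    refine ⟨false, cert_forall (fun u => u ∈ S)
      (fun u y => Sum.elim (ov ρ y) (fun h => F h y) u) key fun y => ?_⟩
    unfold ordv
    simp only [decide_eq_true_eq]
  | or S =>
    rw [hG] at key
    refine ⟨true, cert_exists (fun u => u ∈ S)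
      (fun u y => Sum.elim (ov ρ y) (fun h => F h y) u) key fun y => ?_⟩
    unfold ordv
    simp only [decide_eq_true_eq]
  | not u =>
    rw [hG] at key
    exact ⟨true, ((key u rfl).not).cert true⟩
  | ask m w =>
    refine ⟨true, fun x hx => ?_⟩
    exact absurd hx (by simp [ordv])

theorem ef_cert {t K : ℕ} (hK : 1 ≤ K) {ρ : Restr (Fin n)} {F : Fin s → (Fin n → Bool) → Bool}
    (hF : ∀ g, C.level g < t → Junta K (F g)) {g g' : Fin s} (hg : C.level g ≤ t)
    (hg' : C.level g' ≤ t) : Cert (2 * K) false (ef C ρ F g g') := by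
  have key : ∀ u ∈ (C.gate g).reads, Junta K fun y => Sum.elim (ov ρ y) (fun h => F h y) u :=
    fun u hu => node_junta hK hF u (read_lt hg hu)
  have key' : ∀ u ∈ (C.gate g').reads, Junta K fun y => Sum.elim (ov ρ y) (fun h => F h y) u :=
    fun u hu => node_junta hK hF u (read_lt hg' hu)
  -- if there are no equal queries at all
  have hconst : (∀ y, ef C ρ F g g' y = false) → Cert (2 * K) false (ef C ρ F g g') :=
    fun h x _ => ⟨∅, by simp, fun y _ => h y⟩
  by_cases hask : ∃ m w w', C.gate g = Gate.ask m w ∧ C.gate g' = Gate.ask m w'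
  · obtain ⟨m, w, w', hw, hw'⟩ := hask
    have h1 : ∀ y, ef C ρ F g g' y = true ↔ ∀ p : Fin m × Fin l, True →
        (Sum.elim (ov ρ y) (fun h => F h y) (w p.1 p.2) ==
          Sum.elim (ov ρ y) (fun h => F h y) (w' p.1 p.2)) = true := by
      intro y
      unfold ef
      rw [decide_eq_true_eq, hw, hw']
      constructor
      · rintro ⟨q, h1, h2⟩ p _
        have h3 : (some ⟨m, fun i c => Sum.elim (ov ρ y) (fun h => F h y) (w i c)⟩ :
            Option (Σ m, Fin m → Fin l → Bool)) =
            some ⟨m, fun i c => Sum.elim (ov ρ y) (fun h => F h y) (w' i c)⟩ := by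
          exact h1.trans h2.symm
        have h4 := eq_of_heq (Sigma.mk.inj (Option.some.inj h3)).2
        have h5 := congrFun (congrFun h4 p.1) p.2
        rw [beq_iff_eq]
        exact h5
      · intro h
        refine ⟨⟨m, fun i c => Sum.elim (ov ρ y) (fun h => F h y) (w i c)⟩, rfl, ?_⟩
        have : (fun i c => Sum.elim (ov ρ y) (fun h => F h y) (w' i c)) =
            fun i c => Sum.elim (ov ρ y) (fun h => F h y) (w i c) := by
          funext i c
          have h2 := h (i, c) trivial
          rw [beq_iff_eq] at h2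
          exact h2.symm
        show (some ⟨m, fun i c => Sum.elim (ov ρ y) (fun h => F h y) (w' i c)⟩ :
          Option (Σ m, Fin m → Fin l → Bool)) = _
        rw [this]
    refine cert_forall (fun _ : Fin m × Fin l => True) (fun (p : Fin m × Fin l)
      (y : Fin n → Bool) => Sum.elim (ov ρ y) (fun h => F h y) (w p.1 p.2) ==
          Sum.elim (ov ρ y) (fun h => F h y) (w' p.1 p.2)) ?_ h1
    intro p _
    rw [two_mul]
    apply junta_op (fun a b => a == b)
    · apply key
      rw [hw]
      exact ⟨p.1, p.2, rfl⟩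
    · apply key'
      rw [hw']
      exact ⟨p.1, p.2, rfl⟩
  · apply hconst
    intro y
    unfold ef
    rw [decide_eq_false_iff_not]
    rintro ⟨q, h1, h2⟩
    apply hask
    cases hG : C.gate g with
    | and S => rw [hG] at h1; simp [qry] at h1
    | or S => rw [hG] at h1; simp [qry] at h1
    | not u => rw [hG] at h1; simp [qry] at h1
    | ask m w =>
      cases hG' : C.gate g' with
      | and S => rw [hG'] at h2; simp [qry] at h2
      | or S => rw [hG'] at h2; simp [qry] at h2
      | not u => rw [hG'] at h2; simp [qry] at h2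
      | ask m' w' =>
        rw [hG] at h1
        rw [hG'] at h2
        have h3 : m = m' := by
          have e1 := congrArg Sigma.fst (Option.some.inj h1)
          have e2 := congrArg Sigma.fst (Option.some.inj h2)
          exact e1.trans e2.symm
        subst h3
        exact ⟨m, w, w', rfl, rfl⟩

/-- The raw answer. The word `a y` of `m` symbols depends on the free variables `y`; the symbol `i`
depends on the variables in `D i`, and only the variables in `J` are free. The variables in `P`
are those which occur in many symbols. -/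
theorem raw {m : ℕ} (hm : 0 < m) (a : (Fin n → Bool) → Fin m → Fin l → Bool)
    (D : Fin m → Finset (Fin n)) (J : Finset (Fin n))
    (hD : ∀ i y y', (∀ j ∈ D i ∩ J, y j = y' j) → a y i = a y' i) (hJ : 0 < J.card)
    {γ : ℝ} (hγ : 0 < γ) {Y Z : (m : ℕ) → (Fin m → Fin l → Bool) → Prop}
    (hgap : ∀ b c, Y m b → Z m c → γ * m ≤ ((univ.filter fun i => b i ≠ c i).card : ℝ))
    (P : Finset (Fin n)) (hP : P = univ.filter fun j =>
      γ * m ≤ 4 * J.card * ((univ.filter fun i => j ∈ D i).card : ℝ)) :
    ∃ r : (Fin n → Bool) → Bool, DepOn r (P ∩ J) ∧ ∀ y, (Y m (a y) → r y = true) ∧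
      (Z m (a y) → r y = false) := by
  have hJ0 : (0 : ℝ) < J.card := by exact_mod_cast hJ
  have hm0 : (0 : ℝ) < m := by exact_mod_cast hm
  obtain ⟨msk, hmsk⟩ : ∃ msk : (Fin n → Bool) → Fin n → Bool,
    msk = fun y j => if j ∈ P ∩ J then y j else false := ⟨_, rfl⟩
  -- few symbols change
  have hdist : ∀ y, ((univ.filter fun i => a y i ≠ a (msk y) i).card : ℝ) ≤ γ * m / 4 := by
    intro y
    have h1 : (univ.filter fun i => a y i ≠ a (msk y) i) ⊆
        (J \ P).biUnion fun j => univ.filter fun i => j ∈ D i := by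
      intro i hi
      rw [mem_filter] at hi
      rw [mem_biUnion]
      by_contra hcon
      push Not at hcon
      apply hi.2
      apply hD
      intro j hj
      rw [mem_inter] at hj
      rw [hmsk]
      by_cases hjP : j ∈ P
      · show y j = if j ∈ P ∩ J then y j else false
        rw [if_pos (mem_inter.2 ⟨hjP, hj.2⟩)]
      · exfalso
        apply hcon j (mem_sdiff.2 ⟨hj.2, hjP⟩)
        rw [mem_filter]
        exact ⟨mem_univ _, hj.1⟩
    have h2 : ((univ.filter fun i => a y i ≠ a (msk y) i).card : ℝ) ≤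
        ∑ j ∈ J \ P, ((univ.filter fun i => j ∈ D i).card : ℝ) := by
      have := (card_le_card h1).trans card_biUnion_le
      exact_mod_cast this
    have h3 : ∀ j ∈ J \ P, ((univ.filter fun i => j ∈ D i).card : ℝ) ≤
        γ * m / (4 * J.card) := by
      intro j hj
      rw [mem_sdiff, hP, mem_filter] at hj
      have h4 : ¬ γ * m ≤ 4 * J.card * ((univ.filter fun i => j ∈ D i).card : ℝ) :=
        fun h => hj.2 ⟨mem_univ _, h⟩
      rw [not_le] at h4
      rw [le_div_iff₀ (by positivity)]
      linarith
    refine h2.trans ((sum_le_card_nsmul _ _ _ h3).trans ?_)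
    rw [nsmul_eq_mul]
    have h5 : ((J \ P).card : ℝ) ≤ J.card := by exact_mod_cast card_le_card sdiff_subset
    have h6 : 0 ≤ γ * m / (4 * J.card) := by positivity
    calc ((J \ P).card : ℝ) * (γ * m / (4 * J.card)) ≤ J.card * (γ * m / (4 * J.card)) :=
          mul_le_mul_of_nonneg_right h5 h6
      _ = γ * m / 4 := by field_simp
  refine ⟨fun y => decide (∃ b, Y m b ∧
    ((univ.filter fun i => b i ≠ a (msk y) i).card : ℝ) ≤ γ * m / 4), ?_, ?_⟩
  · intro x y hxy
    have : msk x = msk y := by
      rw [hmsk]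
      funext j
      simp only
      by_cases hj : j ∈ P ∩ J
      · rw [if_pos hj, if_pos hj, hxy j hj]
      · rw [if_neg hj, if_neg hj]
    show decide _ = decide _
    rw [this]
  · intro y
    constructor
    · intro hY
      show decide _ = true
      rw [decide_eq_true_eq]
      exact ⟨a y, hY, hdist y⟩
    · intro hZ
      show decide _ = false
      rw [decide_eq_false_iff_not]
      rintro ⟨b, hb, hbd⟩
      have h1 := hgap b (a y) hb hZ
      have h2 : ((univ.filter fun i => b i ≠ a y i).card : ℝ) ≤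
          ((univ.filter fun i => b i ≠ a (msk y) i).card : ℝ) +
          ((univ.filter fun i => a y i ≠ a (msk y) i).card : ℝ) := by
        have h3 : (univ.filter fun i => b i ≠ a y i) ⊆
            (univ.filter fun i => b i ≠ a (msk y) i) ∪
            (univ.filter fun i => a y i ≠ a (msk y) i) := by
          intro i hi
          rw [mem_filter] at hi
          rw [mem_union, mem_filter, mem_filter]
          by_cases h : a y i = a (msk y) i
          · left
            refine ⟨mem_univ _, fun h' => hi.2 ?_⟩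
            rw [h, h']
          · exact Or.inr ⟨mem_univ _, h⟩
        exact_mod_cast (card_le_card h3).trans (card_union_le _ _)
      have h4 := hdist y
      have h5 : 0 < γ * m := by positivity
      linarith

/-- there are few popular variables -/
theorem pop_card {m : ℕ} (hm : 0 < m) (D : Fin m → Finset (Fin n)) {J c b : ℕ}
    (hc : ∀ i, (D i).card ≤ c) {γ : ℝ} (hγ : 0 < γ) (hb : 4 * (J : ℝ) * c ≤ γ * b) :
    (univ.filter fun j : Fin n =>
      γ * m ≤ 4 * J * ((univ.filter fun i => j ∈ D i).card : ℝ)).card ≤ b := by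
  obtain ⟨P, hP⟩ : ∃ P : Finset (Fin n), P = univ.filter fun j : Fin n =>
      γ * m ≤ 4 * J * ((univ.filter fun i => j ∈ D i).card : ℝ) := ⟨_, rfl⟩
  rw [← hP]
  have hm0 : (0 : ℝ) < m := by exact_mod_cast hm
  have h1 : ∑ j ∈ P, ((univ.filter fun i => j ∈ D i).card : ℝ) ≤ m * c := by
    have h2 : ∑ j ∈ P, (univ.filter fun i => j ∈ D i).card ≤ m * c := by
      have e1 : ∀ j, (univ.filter fun i => j ∈ D i).card = ∑ i, if j ∈ D i then 1 else 0 :=
        fun j => card_filter _ _
      rw [sum_congr rfl fun j _ => e1 j, sum_comm]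
      have e2 : ∀ i ∈ (univ : Finset (Fin m)), ∑ j ∈ P, (if j ∈ D i then 1 else 0) ≤ c := by
        intro i _
        rw [← card_filter]
        refine le_trans (card_le_card ?_) (hc i)
        intro j hj
        exact (mem_filter.1 hj).2
      refine (sum_le_card_nsmul _ _ _ e2).trans ?_
      rw [card_univ, Fintype.card_fin, smul_eq_mul]
    exact_mod_cast h2
  have h3 : (P.card : ℝ) * (γ * m) ≤ 4 * J * (m * c) := by
    calc (P.card : ℝ) * (γ * m) = ∑ _j ∈ P, γ * m := by rw [sum_const, nsmul_eq_mul]
      _ ≤ ∑ j ∈ P, 4 * J * ((univ.filter fun i => j ∈ D i).card : ℝ) := by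
          apply sum_le_sum
          intro j hj
          rw [hP, mem_filter] at hj
          exact hj.2
      _ = 4 * J * ∑ j ∈ P, ((univ.filter fun i => j ∈ D i).card : ℝ) := by rw [mul_sum]
      _ ≤ 4 * J * (m * c) := mul_le_mul_of_nonneg_left h1 (by positivity)
  have h4 : (P.card : ℝ) * γ ≤ 4 * J * c := by
    have h5 : m * ((P.card : ℝ) * γ) ≤ m * (4 * J * c) := by linarith
    exact le_of_mul_le_mul_left h5 hm0
  have h6 : γ * P.card ≤ γ * b := by linarith
  have h7 := le_of_mul_le_mul_left h6 hγ
  exact_mod_cast h7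

end Pool.Agent.N587.OT
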