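import Pool.Agent.N587.OT.Step
import Pool.Agent.Y601.SSE.Ac0

set_option autoImplicit false
set_option linter.unusedSectionVars false

/-!
Parity has no Turing reductions of constant depth to promise problems with a gap.
-/

namespace Pool.Agent.N587.OT

open Finset H568R2

open scoped Classical

/-- the sizes of the juntas -/
def kseq (a : ℕ) : ℕ → ℕ
  | 0 => 1
  | t + 1 => nextK a (kseq a t)

theorem kseq_pos (a t : ℕ) : 1 ≤ kseq a t := by
  induction t with
  | zero => exact le_rfl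
  | succ t ih =>
    show 1 ≤ nextK a (kseq a t)
    have h1 := K1_ge a (kseq a t)
    have h2 := K3_ge a (kseq a t)
    unfold nextK
    omega

/-- a bound for `L` -/
def L0 (a d : ℕ) : ℕ :=
  ∑ t ∈ range d, ((3 * 4 ^ K2 a (kseq a t)) ^ 2 + 4 * K1 a (kseq a t)) + kseq a d + 1

variable {n s l d : ℕ} {C : OCircuit n s l d}
  {Y Z : (m : ℕ) → (Fin m → Fin l → Bool) → Prop}

theorem iter {a L : ℕ} (hs : s ≤ L ^ a) (hl : l ≤ L) (hL : L0 a d ≤ L) (hn : L ^ 16 ^ d ≤ n)
    {γ : ℝ} (hγ : 1 ≤ γ * L)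
    (hgap : ∀ m b c, Y m b → Z m c → γ * m ≤ ((univ.filter fun i => b i ≠ c i).card : ℝ))
    (hpos : ∀ m b, Y m b → 0 < m) : ∀ t, t ≤ d → ∃ (ρ : Restr (Fin n))
      (F : Fin s → (Fin n → Bool) → Bool), L ^ 16 ^ (d - t) ≤ (st ρ).card ∧
      (∀ g, C.level g < t → Junta (kseq a t) (F g)) ∧ Sem C Y Z t ρ F := by
  intro t
  induction t with
  | zero =>
    intro _
    refine ⟨fun _ => none, fun _ _ => false, ?_, fun g hg => absurd hg (Nat.not_lt_zero _), ?_⟩
    · have : st (fun _ : Fin n => (none : Option Bool)) = univ := by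
        ext i
        simp [mem_st]
      rw [this, card_univ, Fintype.card_fin]
      exact hn
    · exact ⟨fun g hg => absurd hg (Nat.not_lt_zero _), fun g hg => absurd hg (Nat.not_lt_zero _),
        fun g g' hg => absurd hg (Nat.not_lt_zero _)⟩
  | succ t ih =>
    intro ht
    obtain ⟨ρ, F, h1, h2, h3⟩ := ih (by omega)
    have hL1 : 1 ≤ L := by
      have : 1 ≤ L0 a d := by unfold L0; omega
      omega
    have hLL : L ≤ L ^ 16 ^ (d - (t + 1)) := by
      calc L = L ^ 1 := (pow_one L).symm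
        _ ≤ L ^ 16 ^ (d - (t + 1)) := Nat.pow_le_pow_right hL1 (Nat.one_le_pow _ _ (by norm_num))
    have hterm : (3 * 4 ^ K2 a (kseq a t)) ^ 2 + 4 * K1 a (kseq a t) ≤ L := by
      have e1 := single_le_sum (s := range d)
        (f := fun t => (3 * 4 ^ K2 a (kseq a t)) ^ 2 + 4 * K1 a (kseq a t))
        (fun i _ => Nat.zero_le _) (mem_range.2 (show t < d by omega))
      have e2 : (3 * 4 ^ K2 a (kseq a t)) ^ 2 + 4 * K1 a (kseq a t) ≤ L0 a d := by
        unfold L0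
        refine le_trans e1 ?_
        omega
      omega
    have hexp : (L ^ 16 ^ (d - (t + 1))) ^ 16 = L ^ 16 ^ (d - t) := by
      rw [← pow_mul, ← pow_succ]
      congr 2
      omega
    have hLr : (L : ℝ) ≤ ((L ^ 16 ^ (d - (t + 1)) : ℕ) : ℝ) := by exact_mod_cast hLL
    have hγ0 : 0 ≤ γ := by
      by_contra h
      push Not at h
      have hL0 : (0 : ℝ) ≤ L := Nat.cast_nonneg _
      have : γ * L ≤ 0 := mul_nonpos_of_nonpos_of_nonneg h.le hL0
      linarith
    obtain ⟨ρ', F', e1, e2, e3⟩ := step (t := t) (a := a) (K := kseq a t)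
      (L := L ^ 16 ^ (d - (t + 1))) (kseq_pos a t) (by omega)
      (hs.trans (Nat.pow_le_pow_left hLL a)) (hl.trans hLL) (by omega) (by omega)
      (by rw [hexp]; exact h1) h2 h3 (hγ.trans (mul_le_mul_of_nonneg_left hLr hγ0)) hgap hpos
    exact ⟨ρ', F', e1, e2, e3⟩

/-- No circuit of depth `d` with oracle gates computes parity from all oracles for a promise
problem with a gap. -/
theorem no_parity {a L : ℕ} (hs : s ≤ L ^ a) (hl : l ≤ L) (hL : L0 a d ≤ L)
    (hn : L ^ 16 ^ d ≤ n) {γ : ℝ} (hγ : 1 ≤ γ * L)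
    (hgap : ∀ m b c, Y m b → Z m c → γ * m ≤ ((univ.filter fun i => b i ≠ c i).card : ℝ))
    (hpos : ∀ m b, Y m b → 0 < m) : ¬ C.Parity Y Z := by
  intro hpar
  obtain ⟨ρ, F, h1, h2, h3⟩ := iter (C := C) hs hl hL hn hγ hgap hpos d le_rfl
  rw [Nat.sub_self, pow_zero, pow_one] at h1
  have hγ0 : 0 < γ := by
    by_contra h
    push Not at h
    have hL0 : (0 : ℝ) ≤ L := Nat.cast_nonneg _
    have : γ * L ≤ 0 := mul_nonpos_of_nonpos_of_nonneg h hL0
    linarith
  have hYZ : ∀ m a, Y m a → Z m a → False := by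
    intro m a hY hZ
    have e1 := hgap m a a hY hZ
    have e2 := hpos m a hY
    have e3 : (0 : ℝ) < m := by exact_mod_cast e2
    have e4 : (univ.filter fun i => a i ≠ a i) = ∅ := by simp
    rw [e4, card_empty, Nat.cast_zero] at e1
    have := mul_pos hγ0 e3
    linarith
  obtain ⟨A, hA, hAD⟩ := node_junta (kseq_pos a d) h2 (ρ := ρ) C.out
    (fun g _ => C.level_lt g)
  have hk : kseq a d < L := by
    have : kseq a d < L0 a d := by unfold L0; omega
    omega
  obtain ⟨i, hi, hiA⟩ : ∃ i ∈ st ρ, i ∉ A := by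
    by_contra hcon
    push Not at hcon
    have := card_le_card (show st ρ ⊆ A from hcon)
    omega
  rw [mem_st] at hi
  obtain ⟨x, hx⟩ : ∃ x : Fin n → Bool, x = fun _ => false := ⟨_, rfl⟩
  have hout : ∀ x : Fin n → Bool, (Sum.elim (ov ρ x) (fun g => F g x) C.out = true ↔
      Odd (univ.filter fun i => ov ρ x i = true).card) := by
    intro x
    obtain ⟨O, hO1, hO2⟩ := h3.oracle hYZ x
    exact hpar O hO1 (ov ρ x) _ hO2
  have hsame : Sum.elim (ov ρ (Y601.SSE.flip i x)) (fun g => F g (Y601.SSE.flip i x)) C.out =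
      Sum.elim (ov ρ x) (fun g => F g x) C.out := by
    refine hAD (Y601.SSE.flip i x) x ?_
    intro j hj
    have hji : j ≠ i := fun h => hiA (h ▸ hj)
    unfold Y601.SSE.flip
    exact Function.update_of_ne hji _ _
  have e1 := hout x
  have e2 := hout (Y601.SSE.flip i x)
  rw [hsame, Y601.SSE.ov_flip ρ i hi x, Y601.SSE.odd_flip i (ov ρ x)] at e2
  rw [e1] at e2
  exact iff_not_self e2

/-- the form with exponents -/
theorem main (d c : ℕ) : ∃ e N₀ : ℕ, 1 ≤ e ∧ ∀ {n s l : ℕ} (C : OCircuit n s l d)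
    {Y Z : (m : ℕ) → (Fin m → Fin l → Bool) → Prop} {γ : ℝ}, N₀ ≤ n → s ≤ n ^ c → l ^ e ≤ n →
    0 ≤ γ → 1 ≤ γ ^ e * n →
    (∀ m b c, Y m b → Z m c → γ * m ≤ ((univ.filter fun i => b i ≠ c i).card : ℝ)) →
    (∀ m b, Y m b → 0 < m) → ¬ C.Parity Y Z := by
  obtain ⟨a, ha⟩ : ∃ a, a = 2 * 16 ^ d * c := ⟨_, rfl⟩
  have hd1 : 1 ≤ 16 ^ d := Nat.one_le_pow _ _ (by norm_num)
  refine ⟨2 * 16 ^ d, (L0 a d + 2) ^ 16 ^ d, by omega, ?_⟩
  intro n s l C Y Z γ hN hs hl hγ0 hγ hgap hpos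
  have hd : 16 ^ d ≠ 0 := by positivity
  -- the root
  obtain ⟨L, hL1, hL2⟩ : ∃ L : ℕ, L ^ 16 ^ d ≤ n ∧ n < (L + 1) ^ 16 ^ d := by
    have hex : ∃ k : ℕ, n < (k + 1) ^ 16 ^ d := by
      refine ⟨n, lt_of_lt_of_le (Nat.lt_succ_self n) ?_⟩
      calc n + 1 = (n + 1) ^ 1 := (pow_one _).symm
        _ ≤ (n + 1) ^ 16 ^ d := Nat.pow_le_pow_right (by omega) (Nat.one_le_pow _ _ (by norm_num))
    refine ⟨Nat.find hex, ?_, Nat.find_spec hex⟩
    rcases Nat.eq_zero_or_pos (Nat.find hex) with h | h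
    · rw [h, zero_pow hd]
      exact Nat.zero_le _
    · have := Nat.find_min hex (show Nat.find hex - 1 < Nat.find hex by omega)
      rw [not_lt, Nat.sub_add_cancel h] at this
      exact this
  have hLL : L0 a d + 1 ≤ L := by
    by_contra hcon
    push Not at hcon
    have h1 : (L + 1) ^ 16 ^ d ≤ (L0 a d + 2) ^ 16 ^ d := Nat.pow_le_pow_left (by omega) _
    omega
  have hL02 : 1 ≤ L0 a d := by unfold L0; omega
  have hL4 : L + 1 ≤ L ^ 2 := by nlinarith
  have hn2 : n ≤ L ^ (2 * 16 ^ d) := by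
    have h1 : (L + 1) ^ 16 ^ d ≤ (L ^ 2) ^ 16 ^ d := Nat.pow_le_pow_left hL4 _
    rw [← pow_mul] at h1
    omega
  apply no_parity (C := C) (a := a) (L := L) _ _ (by omega) hL1 _ hgap hpos
  · refine hs.trans ?_
    calc n ^ c ≤ (L ^ (2 * 16 ^ d)) ^ c := Nat.pow_le_pow_left hn2 c
      _ = L ^ a := by rw [← pow_mul, ha]
  · have h1 : l ^ (2 * 16 ^ d) ≤ L ^ (2 * 16 ^ d) := hl.trans hn2
    exact (Nat.pow_le_pow_iff_left (by positivity)).1 h1
  · have h1 : (n : ℝ) ≤ (L : ℝ) ^ (2 * 16 ^ d) := by exact_mod_cast hn2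
    have h2 : (1 : ℝ) ≤ (γ * L) ^ (2 * 16 ^ d) := by
      rw [mul_pow]
      refine hγ.trans ?_
      exact mul_le_mul_of_nonneg_left h1 (by positivity)
    by_contra hcon
    push Not at hcon
    have h3 : (γ * L) ^ (2 * 16 ^ d) < 1 :=
      pow_lt_one₀ (by positivity) hcon (by positivity)
    linarith

end Pool.Agent.N587.OT
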