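import Pool.Agent.N587.OT.Defs
import Pool.Agent.Y601.SSE.Ac0

set_option autoImplicit false
set_option linter.unusedSectionVars false

/-!
Random restrictions for finite families of functions.
-/

namespace Pool.Agent.N587.OT

open Finset H568R2

variable {I : Type} [Fintype I] [DecidableEq I]

/-- the free variables of a restriction -/
def st (ρ : Restr I) : Finset I := univ.filter fun i => ρ i = none

theorem mem_st {ρ : Restr I} {i : I} : i ∈ st ρ ↔ ρ i = none := by
  unfold st
  simp

theorem st_cmp (ρ τ : Restr I) : st (cmp ρ τ) = st ρ ∩ st τ := by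
  ext i
  rw [mem_inter, mem_st, mem_st, mem_st]
  unfold H568R2.cmp
  cases ρ i <;> simp

theorem ov_cmp (ρ τ : Restr I) (y : I → Bool) : ov (cmp ρ τ) y = ov ρ (ov τ y) := by
  funext i
  unfold ov H568R2.cmp
  cases ρ i <;> simp

/-- a restriction for which a bad event does not happen and many variables stay free -/
theorem exists_good (ρ : Restr I) (bad : Restr I → Prop) {q : ℝ} (h0 : 0 < q) (h1 : q ≤ 1 / 3)
    (hM : 0 < (st ρ).card)
    (hbad : by classical exact Ex (wq q) (fun τ : Restr I => if bad τ then (1 : ℝ) else 0) ≤ q / 2) :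
    ∃ τ : Restr I, ¬ bad τ ∧ ((st ρ).card : ℝ) * q / 4 ≤ (st (cmp ρ τ)).card := by
  classical
  have hw : ∀ a, 0 ≤ wq q a := wq_nonneg h0.le (by linarith)
  obtain ⟨M, hMd⟩ : ∃ M : ℝ, M = (st ρ).card := ⟨_, rfl⟩
  have hM0 : 0 < M := by rw [hMd]; exact_mod_cast hM
  rw [← hMd]
  have hstars : Ex (wq q) (fun τ : Restr I => ((st (cmp ρ τ)).card : ℝ)) = M * q := by
    have e1 : (fun τ : Restr I => ((st (cmp ρ τ)).card : ℝ)) =
        fun τ : Restr I => ∑ i ∈ st ρ, if τ i = none then (1 : ℝ) else 0 := by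
      funext τ
      rw [st_cmp]
      have : st ρ ∩ st τ = (st ρ).filter fun i => τ i = none := by
        ext i
        rw [mem_inter, mem_filter, mem_st (ρ := τ)]
      rw [this, card_filter]
      push_cast
      rfl
    rw [e1, Ex_sum (st ρ) (wq q) fun i (τ : Restr I) => if τ i = none then (1 : ℝ) else 0,
      sum_congr rfl fun i _ => Y601.SSE.ex_star (p := q) i, sum_const, nsmul_eq_mul, hMd]
  by_contra hcon
  push Not at hcon
  have hpt : ∀ τ : Restr I, ((st (cmp ρ τ)).card : ℝ) ≤
      M * (if bad τ then (1 : ℝ) else 0) + M * (q / 4) := by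
    intro τ
    by_cases hb : bad τ
    · rw [if_pos hb, mul_one]
      have h3 : ((st (cmp ρ τ)).card : ℝ) ≤ M := by
        rw [hMd, st_cmp]
        exact_mod_cast card_le_card inter_subset_left
      have : 0 ≤ M * (q / 4) := by positivity
      linarith
    · rw [if_neg hb, mul_zero, zero_add]
      have := hcon τ hb
      linarith
  have h8 := Ex_mono hw hpt
  rw [hstars, Ex_add (wq q) (fun τ : Restr I => M * (if bad τ then (1 : ℝ) else 0))
    fun _ => M * (q / 4), Ex_smul, Ex_const (wq_sum _)] at h8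
  have h9 := mul_le_mul_of_nonneg_left hbad hM0.le
  have h10 : 0 < M * q := mul_pos hM0 h0
  nlinarith

/-- all functions of a family with small certificates become juntas -/
theorem restr_family {ι : Type} [Fintype ι] (f : ι → (I → Bool) → Bool) {c : ℕ}
    (hf : ∀ j, ∃ b, Cert c b (f j)) (ρ : Restr I) {q : ℝ} (h0 : 0 < q) (h1 : q ≤ 1 / 3)
    (hM : 0 < (st ρ).card) {k : ℕ}
    (hk : (Fintype.card ι : ℝ) * (4 ^ c * (3 * q)) ^ k ≤ q / 2) :
    ∃ τ : Restr I, (∀ j, Junta (Ks c k) (rs (f j) τ)) ∧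
      ((st ρ).card : ℝ) * q / 4 ≤ (st (cmp ρ τ)).card := by
  classical
  have hw : ∀ a, 0 ≤ wq q a := wq_nonneg h0.le (by linarith)
  obtain ⟨bad, hbd⟩ : ∃ bad : Restr I → Prop, bad = fun τ => ¬ ∀ j, Junta (Ks c k) (rs (f j) τ) :=
    ⟨_, rfl⟩
  obtain ⟨τ, hτ, hst⟩ := exists_good ρ bad h0 h1 hM (by
    have hpt : ∀ τ : Restr I, (if bad τ then (1 : ℝ) else 0) ≤
        ∑ j, if ¬ Junta (Ks c k) (rs (f j) τ) then (1 : ℝ) else 0 := by
      intro τ
      have hnn : ∀ j ∈ (univ : Finset ι),
          (0 : ℝ) ≤ if ¬ Junta (Ks c k) (rs (f j) τ) then (1 : ℝ) else 0 := by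
        intro j _
        split_ifs <;> norm_num
      by_cases hall : bad τ
      swap
      · rw [if_neg hall]
        exact sum_nonneg hnn
      · rw [if_pos hall]
        rw [hbd] at hall
        push Not at hall
        obtain ⟨j, hj⟩ := hall
        refine le_trans ?_ (Finset.single_le_sum hnn (mem_univ j))
        rw [if_pos hj]
    refine (Ex_mono hw hpt).trans ?_
    rw [Ex_sum univ (wq q) fun (j : ι) (τ : Restr I) =>
      if ¬ Junta (Ks c k) (rs (f j) τ) then (1 : ℝ) else 0]
    have h2 : ∀ j ∈ (univ : Finset ι), Ex (wq q) (fun τ : Restr I =>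
        if ¬ Junta (Ks c k) (rs (f j) τ) then (1 : ℝ) else 0) ≤ (4 ^ c * (3 * q)) ^ k := by
      intro j _
      obtain ⟨b, hb⟩ := hf j
      exact switching h0.le h1 hb
    refine (sum_le_card_nsmul _ _ _ h2).trans ?_
    rw [nsmul_eq_mul, card_univ]
    exact hk)
  rw [hbd] at hτ
  exact ⟨τ, not_not.1 hτ, hst⟩

/-- the probability that `k` given variables stay free -/
theorem ex_all_free {q : ℝ} (Z : Finset I) : by
    classical exact Ex (wq q) (fun τ : Restr I => if ∀ i ∈ Z, τ i = none then (1 : ℝ) else 0) =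
      q ^ Z.card := by
  classical
  have h := Ex_indep (I := I) (wq_sum q) (fun a : Option Bool => a = none) Z (fun _ => (1 : ℝ))
    (fun _ _ _ _ => rfl)
  have h2 : (∑ a ∈ univ.filter (fun a : Option Bool => a = none), wq q a) = q := by
    rw [sum_filter, Fintype.sum_option]
    simp [wq]
  rw [h2, Ex_const (wq_sum q), mul_one] at h
  rw [← h]
  congr 1
  funext τ
  rw [one_mul]

/-- few elements of small sets stay free; exactly `m` variables stay free -/
theorem restr_pop {ι : Type} [Fintype ι] (P : ι → Finset I) {b : ℕ} (hP : ∀ j, (P j).card ≤ b)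
    (ρ : Restr I) {q : ℝ} (h0 : 0 < q) (h1 : q ≤ 1 / 3) (hM : 0 < (st ρ).card) {k : ℕ}
    (hk : (Fintype.card ι : ℝ) * (b * q) ^ k ≤ q / 2) {m : ℕ}
    (hm : (m : ℝ) ≤ ((st ρ).card : ℝ) * q / 4) :
    ∃ τ : Restr I, (∀ j, (P j ∩ st τ).card < k) ∧ st τ ⊆ st ρ ∧ (st τ).card = m := by
  classical
  have hw : ∀ a, 0 ≤ wq q a := wq_nonneg h0.le (by linarith)
  obtain ⟨bad, hbd⟩ : ∃ bad : Restr I → Prop, bad = fun τ => ¬ ∀ j, (P j ∩ st τ).card < k :=
    ⟨_, rfl⟩
  obtain ⟨τ, hτ, hst⟩ := exists_good ρ bad h0 h1 hM (by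
    have hpt : ∀ τ : Restr I, (if bad τ then (1 : ℝ) else 0) ≤
        ∑ j, ∑ Z ∈ (P j).powersetCard k, if ∀ i ∈ Z, τ i = none then (1 : ℝ) else 0 := by
      intro τ
      have hnn : ∀ j ∈ (univ : Finset ι),
          (0 : ℝ) ≤ ∑ Z ∈ (P j).powersetCard k, if ∀ i ∈ Z, τ i = none then (1 : ℝ) else 0 := by
        intro j _
        apply sum_nonneg
        intro Z _
        split_ifs <;> norm_num
      by_cases hall : bad τ
      swap
      · rw [if_neg hall]
        exact sum_nonneg hnn
      · rw [if_pos hall]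
        rw [hbd] at hall
        push Not at hall
        obtain ⟨j, hj⟩ := hall
        refine le_trans ?_ (Finset.single_le_sum hnn (mem_univ j))
        obtain ⟨Z, hZ, hZc⟩ := exists_subset_card_eq hj
        have hZm : Z ∈ (P j).powersetCard k := by
          rw [mem_powersetCard]
          exact ⟨hZ.trans inter_subset_left, hZc⟩
        refine le_trans ?_ (Finset.single_le_sum (f := fun Z : Finset I =>
          if ∀ i ∈ Z, τ i = none then (1 : ℝ) else 0) (fun Z _ => by split_ifs <;> norm_num) hZm)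
        rw [if_pos]
        intro i hi
        exact mem_st.1 (mem_inter.1 (hZ hi)).2
    refine (Ex_mono hw hpt).trans ?_
    rw [Ex_sum univ (wq q) fun (j : ι) (τ : Restr I) =>
      ∑ Z ∈ (P j).powersetCard k, if ∀ i ∈ Z, τ i = none then (1 : ℝ) else 0]
    have h2 : ∀ j ∈ (univ : Finset ι), Ex (wq q) (fun τ : Restr I =>
        ∑ Z ∈ (P j).powersetCard k, if ∀ i ∈ Z, τ i = none then (1 : ℝ) else 0) ≤
        (b * q) ^ k := by
      intro j _
      rw [Ex_sum ((P j).powersetCard k) (wq q) fun (Z : Finset I) (τ : Restr I) =>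
        if ∀ i ∈ Z, τ i = none then (1 : ℝ) else 0]
      have h3 : ∀ Z ∈ (P j).powersetCard k, Ex (wq q) (fun τ : Restr I =>
          if ∀ i ∈ Z, τ i = none then (1 : ℝ) else 0) = q ^ k := by
        intro Z hZ
        rw [mem_powersetCard] at hZ
        have h4 := ex_all_free (q := q) Z
        rw [hZ.2] at h4
        exact h4
      rw [sum_congr rfl h3, sum_const, card_powersetCard, nsmul_eq_mul, mul_pow]
      apply mul_le_mul_of_nonneg_right _ (by positivity)
      have h5 : ((P j).card.choose k : ℝ) ≤ ((P j).card : ℝ) ^ k := by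
        exact_mod_cast Nat.choose_le_pow _ _
      refine h5.trans (pow_le_pow_left₀ (by positivity) ?_ k)
      exact_mod_cast hP j
    refine (sum_le_card_nsmul _ _ _ h2).trans ?_
    rw [nsmul_eq_mul, card_univ]
    exact hk)
  rw [hbd] at hτ
  have hτ' := not_not.1 hτ
  have hle : m ≤ (st (cmp ρ τ)).card := by
    have : (m : ℝ) ≤ ((st (cmp ρ τ)).card : ℝ) := hm.trans hst
    exact_mod_cast this
  obtain ⟨T, hT, hTc⟩ := exists_subset_card_eq hle
  refine ⟨fun i => if i ∈ T then none else some false, ?_, ?_, ?_⟩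
  · intro j
    refine lt_of_le_of_lt (card_le_card ?_) (hτ' j)
    intro i hi
    rw [mem_inter, mem_st] at hi
    have hiT : i ∈ T := by
      by_contra h
      simp [h] at hi
    have := hT hiT
    rw [st_cmp, mem_inter] at this
    exact mem_inter.2 ⟨hi.1, this.2⟩
  · intro i hi
    rw [mem_st] at hi
    have hiT : i ∈ T := by
      by_contra h
      simp [h] at hi
    have := hT hiT
    rw [st_cmp, mem_inter] at this
    exact this.1
  · rw [← hTc]
    congr 1
    ext i
    rw [mem_st]
    by_cases h : i ∈ T <;> simp [h]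

end Pool.Agent.N587.OT
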