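import Pool.Agent.N587.OT.Pr

set_option autoImplicit false
set_option linter.unusedSectionVars false

/-!
The semantic part of the induction on the levels.
-/

namespace Pool.Agent.N587.OT

open Finset H568R2

open scoped Classical

variable {n s l d : ℕ}

/-- the value of a gate without oracle -/
noncomputable def ordv (G : Gate n s l) (x : Fin n → Bool) (v : Fin s → Bool) : Bool :=
  match G with
  | .and S => decide (∀ u ∈ S, Sum.elim x v u = true)
  | .or S => decide (∃ u ∈ S, Sum.elim x v u = true)
  | .not u => !(Sum.elim x v u)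
  | .ask _ _ => false

/-- oracle gates -/
def IsAsk : Gate n s l → Prop
  | .ask _ _ => True
  | _ => False

/-- the word asked by a gate -/
def qry (G : Gate n s l) (x : Fin n → Bool) (v : Fin s → Bool) :
    Option (Σ m, Fin m → Fin l → Bool) :=
  match G with
  | .ask m w => some ⟨m, fun i c => Sum.elim x v (w i c)⟩
  | _ => none

theorem elim_congr {x : Fin n → Bool} {v v' : Fin s → Bool} {R : Set (Node n s)}
    (h : ∀ g, Sum.inr g ∈ R → v g = v' g) {u : Node n s} (hu : u ∈ R) :
    Sum.elim x v u = Sum.elim x v' u := by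
  cases u with
  | inl i => rfl
  | inr g => exact h g hu

theorem ordv_congr {G : Gate n s l} {x : Fin n → Bool} {v v' : Fin s → Bool}
    (h : ∀ g, Sum.inr g ∈ G.reads → v g = v' g) : ordv G x v = ordv G x v' := by
  have key : ∀ u ∈ G.reads, Sum.elim x v u = Sum.elim x v' u := fun u hu => elim_congr h hu
  cases G with
  | and S =>
    show decide (∀ u ∈ S, Sum.elim x v u = true) = decide (∀ u ∈ S, Sum.elim x v' u = true)
    rw [decide_eq_decide]
    exact forall₂_congr fun u hu => by rw [key u hu]
  | or S =>
    show decide (∃ u ∈ S, Sum.elim x v u = true) = decide (∃ u ∈ S, Sum.elim x v' u = true)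
    rw [decide_eq_decide]
    constructor
    · rintro ⟨u, hu, h⟩
      exact ⟨u, hu, by rw [← key u hu]; exact h⟩
    · rintro ⟨u, hu, h⟩
      exact ⟨u, hu, by rw [key u hu]; exact h⟩
  | not u =>
    show (!(Sum.elim x v u)) = !(Sum.elim x v' u)
    rw [key u rfl]
  | ask m w => rfl

theorem qry_congr {G : Gate n s l} {x : Fin n → Bool} {v v' : Fin s → Bool}
    (h : ∀ g, Sum.inr g ∈ G.reads → v g = v' g) : qry G x v = qry G x v' := by
  have key : ∀ u ∈ G.reads, Sum.elim x v u = Sum.elim x v' u := fun u hu => elim_congr h hu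
  cases G with
  | and S => rfl
  | or S => rfl
  | not u => rfl
  | ask m w =>
    have : (fun i c => Sum.elim x v (w i c)) = fun i c => Sum.elim x v' (w i c) := by
      funext i c
      exact key _ ⟨i, c, rfl⟩
    show (some ⟨m, fun i c => Sum.elim x v (w i c)⟩ : Option (Σ m, Fin m → Fin l → Bool)) =
      some ⟨m, _⟩
    rw [this]

theorem qry_isAsk {G : Gate n s l} {x : Fin n → Bool} {v : Fin s → Bool}
    {q : Σ m, Fin m → Fin l → Bool} (h : qry G x v = some q) : IsAsk G := by
  cases G with
  | and S => simp [qry] at h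
  | or S => simp [qry] at h
  | not u => simp [qry] at h
  | ask m w => trivial

theorem isAsk_qry {G : Gate n s l} (h : IsAsk G) (x : Fin n → Bool) (v : Fin s → Bool) :
    ∃ q, qry G x v = some q := by
  cases G with
  | and S => exact absurd h id
  | or S => exact absurd h id
  | not u => exact absurd h id
  | ask m w => exact ⟨_, rfl⟩

/-- the values `F` of the gates of level `< t` as functions of the free variables are the values
for some oracle which solves the promise problem -/
structure Sem (C : OCircuit n s l d) (Y Z : (m : ℕ) → (Fin m → Fin l → Bool) → Prop) (t : ℕ)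
    (ρ : Restr (Fin n)) (F : Fin s → (Fin n → Bool) → Bool) : Prop where
  ord : ∀ g, C.level g < t → ¬ IsAsk (C.gate g) → ∀ y,
    F g y = ordv (C.gate g) (ov ρ y) fun h => F h y
  prom : ∀ g, C.level g < t → ∀ y q, qry (C.gate g) (ov ρ y) (fun h => F h y) = some q →
    (Y q.1 q.2 → F g y = true) ∧ (Z q.1 q.2 → F g y = false)
  cons : ∀ g g', C.level g < t → C.level g' < t → ∀ y q,
    qry (C.gate g) (ov ρ y) (fun h => F h y) = some q →
    qry (C.gate g') (ov ρ y) (fun h => F h y) = some q → F g y = F g' y

variable {C : OCircuit n s l d} {Y Z : (m : ℕ) → (Fin m → Fin l → Bool) → Prop}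

theorem Sem.restrict {t : ℕ} {ρ : Restr (Fin n)} {F : Fin s → (Fin n → Bool) → Bool}
    (h : Sem C Y Z t ρ F) (τ : Restr (Fin n)) :
    Sem C Y Z t (cmp ρ τ) fun g => rs (F g) τ := by
  refine ⟨?_, ?_, ?_⟩
  · intro g hg ha y
    rw [ov_cmp]
    exact h.ord g hg ha (ov τ y)
  · intro g hg y q hq
    rw [ov_cmp] at hq
    exact h.prom g hg (ov τ y) q hq
  · intro g g' hg hg' y q hq hq'
    rw [ov_cmp] at hq hq'
    exact h.cons g g' hg hg' (ov τ y) q hq hq'

/-- the oracle gates `g` and `g'` ask the same word -/
noncomputable def ef (C : OCircuit n s l d) (ρ : Restr (Fin n))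
    (F : Fin s → (Fin n → Bool) → Bool) (g g' : Fin s) (y : Fin n → Bool) : Bool :=
  decide (∃ q, qry (C.gate g) (ov ρ y) (fun h => F h y) = some q ∧
    qry (C.gate g') (ov ρ y) (fun h => F h y) = some q)

/-- some gate of a smaller level asks the same word and its answer is `true` -/
noncomputable def A1 (C : OCircuit n s l d) (t : ℕ) (ρ : Restr (Fin n))
    (F : Fin s → (Fin n → Bool) → Bool) (g : Fin s) (y : Fin n → Bool) : Bool :=
  decide (∃ g', C.level g' < t ∧ (ef C ρ F g g' y && F g' y) = true)

/-- no gate of a smaller level asks the same word -/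
noncomputable def A2 (C : OCircuit n s l d) (t : ℕ) (ρ : Restr (Fin n))
    (F : Fin s → (Fin n → Bool) → Bool) (g : Fin s) (y : Fin n → Bool) : Bool :=
  decide (∀ g', C.level g' < t → (!(ef C ρ F g g' y)) = true)

/-- for some gate of the same level which asks the same word the raw answer is `true` -/
noncomputable def A3 (C : OCircuit n s l d) (t : ℕ) (ρ : Restr (Fin n))
    (F r : Fin s → (Fin n → Bool) → Bool) (g : Fin s) (y : Fin n → Bool) : Bool :=
  decide (∃ g', C.level g' = t ∧ (ef C ρ F g g' y && r g' y) = true)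

/-- the new values -/
noncomputable def nw (C : OCircuit n s l d) (t : ℕ) (ρ : Restr (Fin n))
    (F r : Fin s → (Fin n → Bool) → Bool) (g : Fin s) (y : Fin n → Bool) : Bool :=
  if C.level g < t then F g y else
    if IsAsk (C.gate g) then A1 C t ρ F g y || (A2 C t ρ F g y && A3 C t ρ F r g y)
    else ordv (C.gate g) (ov ρ y) fun h => F h y

theorem nw_lt {t : ℕ} {ρ : Restr (Fin n)} {F r : Fin s → (Fin n → Bool) → Bool} {g : Fin s}
    (hg : C.level g < t) (y : Fin n → Bool) : nw C t ρ F r g y = F g y := by
  unfold nw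
  rw [if_pos hg]

theorem nw_ord {t : ℕ} {ρ : Restr (Fin n)} {F r : Fin s → (Fin n → Bool) → Bool} {g : Fin s}
    (hg : ¬ C.level g < t) (ha : ¬ IsAsk (C.gate g)) (y : Fin n → Bool) :
    nw C t ρ F r g y = ordv (C.gate g) (ov ρ y) fun h => F h y := by
  unfold nw
  rw [if_neg hg, if_neg ha]

theorem nw_ask {t : ℕ} {ρ : Restr (Fin n)} {F r : Fin s → (Fin n → Bool) → Bool} {g : Fin s}
    (hg : ¬ C.level g < t) (ha : IsAsk (C.gate g)) (y : Fin n → Bool) :
    nw C t ρ F r g y = (A1 C t ρ F g y || (A2 C t ρ F g y && A3 C t ρ F r g y)) := by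
  unfold nw
  rw [if_neg hg, if_pos ha]

theorem sem_step {t : ℕ} {ρ : Restr (Fin n)} {F r : Fin s → (Fin n → Bool) → Bool}
    (h : Sem C Y Z t ρ F)
    (hr : ∀ g, C.level g = t → ∀ y q, qry (C.gate g) (ov ρ y) (fun h => F h y) = some q →
      (Y q.1 q.2 → r g y = true) ∧ (Z q.1 q.2 → r g y = false)) :
    Sem C Y Z (t + 1) ρ (nw C t ρ F r) := by
  -- the queries do not change
  have hread : ∀ g, C.level g < t + 1 → ∀ y g', Sum.inr g' ∈ (C.gate g).reads →
      nw C t ρ F r g' y = F g' y := by
    intro g hg y g' hg'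
    have := C.acyclic g g' hg'
    exact nw_lt (by omega) y
  have hq : ∀ g, C.level g < t + 1 → ∀ y, qry (C.gate g) (ov ρ y) (fun h => nw C t ρ F r h y) =
      qry (C.gate g) (ov ρ y) fun h => F h y :=
    fun g hg y => qry_congr (hread g hg y)
  have ho : ∀ g, C.level g < t + 1 → ∀ y, ordv (C.gate g) (ov ρ y) (fun h => nw C t ρ F r h y) =
      ordv (C.gate g) (ov ρ y) fun h => F h y :=
    fun g hg y => ordv_congr (hread g hg y)
  -- the value of an oracle gate which asks `q`
  have hsame : ∀ g, C.level g = t → ∀ y q,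
      qry (C.gate g) (ov ρ y) (fun h => F h y) = some q →
      ∀ g', C.level g' < t → qry (C.gate g') (ov ρ y) (fun h => F h y) = some q →
      nw C t ρ F r g y = F g' y := by
    intro g hg y q hq1 g' hg' hq2
    rw [nw_ask (by omega) (qry_isAsk hq1)]
    have hE : ef C ρ F g g' y = true := by
      unfold ef
      rw [decide_eq_true_eq]
      exact ⟨q, hq1, hq2⟩
    have h2 : A2 C t ρ F g y = false := by
      unfold A2
      rw [decide_eq_false_iff_not]
      intro hall
      have := hall g' hg'
      rw [hE] at this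
      exact absurd this (by simp)
    rw [h2, Bool.false_and, Bool.or_false]
    cases hv : F g' y
    · unfold A1
      rw [decide_eq_false_iff_not]
      rintro ⟨g2, hg2, hb⟩
      rw [Bool.and_eq_true] at hb
      obtain ⟨hb1, hb2⟩ := hb
      unfold ef at hb1
      rw [decide_eq_true_eq] at hb1
      obtain ⟨q', hq3, hq4⟩ := hb1
      rw [hq1] at hq3
      have hqq := Option.some.inj hq3
      rw [← hqq] at hq4
      have := h.cons g2 g' hg2 hg' y q hq4 hq2
      rw [hb2, hv] at this
      exact absurd this (by simp)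
    · unfold A1
      rw [decide_eq_true_eq]
      exact ⟨g', hg', by rw [hE, hv]; rfl⟩
  have hnone : ∀ g, C.level g = t → ∀ y q,
      qry (C.gate g) (ov ρ y) (fun h => F h y) = some q →
      (¬ ∃ g', C.level g' < t ∧ qry (C.gate g') (ov ρ y) (fun h => F h y) = some q) →
      (nw C t ρ F r g y = true ↔
        ∃ g', C.level g' = t ∧ qry (C.gate g') (ov ρ y) (fun h => F h y) = some q ∧
          r g' y = true) := by
    intro g hg y q hq1 hno
    rw [nw_ask (by omega) (qry_isAsk hq1)]
    have hE : ∀ g', (ef C ρ F g g' y = true ↔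
        qry (C.gate g') (ov ρ y) (fun h => F h y) = some q) := by
      intro g'
      unfold ef
      rw [decide_eq_true_eq]
      constructor
      · rintro ⟨q', h1, h2⟩
        rw [hq1] at h1
        rw [Option.some.inj h1]
        exact h2
      · intro h2
        exact ⟨q, hq1, h2⟩
    have h1 : A1 C t ρ F g y = false := by
      unfold A1
      rw [decide_eq_false_iff_not]
      rintro ⟨g', hg', hb⟩
      rw [Bool.and_eq_true] at hb
      exact hno ⟨g', hg', (hE g').1 hb.1⟩
    have h2 : A2 C t ρ F g y = true := by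
      unfold A2
      rw [decide_eq_true_eq]
      intro g' hg'
      have : ¬ ef C ρ F g g' y = true := fun hb => hno ⟨g', hg', (hE g').1 hb⟩
      rw [Bool.not_eq_true] at this
      rw [this]
      rfl
    rw [h1, h2, Bool.false_or, Bool.true_and]
    unfold A3
    rw [decide_eq_true_eq]
    constructor
    · rintro ⟨g', hg', hb⟩
      rw [Bool.and_eq_true] at hb
      exact ⟨g', hg', (hE g').1 hb.1, hb.2⟩
    · rintro ⟨g', hg', h3, h4⟩
      exact ⟨g', hg', by rw [(hE g').2 h3, h4]; rfl⟩
  refine ⟨?_, ?_, ?_⟩
  · intro g hg ha y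
    rw [ho g hg y]
    by_cases hlt : C.level g < t
    · rw [nw_lt hlt]
      exact h.ord g hlt ha y
    · exact nw_ord hlt ha y
  · intro g hg y q hqq
    rw [hq g hg y] at hqq
    by_cases hlt : C.level g < t
    · rw [nw_lt hlt]
      exact h.prom g hlt y q hqq
    · have hgt : C.level g = t := by omega
      by_cases hex : ∃ g', C.level g' < t ∧ qry (C.gate g') (ov ρ y) (fun h => F h y) = some q
      · obtain ⟨g', hg', hq'⟩ := hex
        rw [hsame g hgt y q hqq g' hg' hq']
        exact h.prom g' hg' y q hq'
      · have h1 := hnone g hgt y q hqq hex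
        constructor
        · intro hY
          rw [h1]
          exact ⟨g, hgt, hqq, (hr g hgt y q hqq).1 hY⟩
        · intro hZ
          rw [← Bool.not_eq_true, h1]
          rintro ⟨g', hg', hq', hr'⟩
          rw [(hr g' hg' y q hq').2 hZ] at hr'
          exact absurd hr' (by simp)
  · intro g g' hg hg' y q hq1 hq2
    rw [hq g hg y] at hq1
    rw [hq g' hg' y] at hq2
    by_cases hlt : C.level g < t
    · by_cases hlt' : C.level g' < t
      · rw [nw_lt hlt, nw_lt hlt']
        exact h.cons g g' hlt hlt' y q hq1 hq2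
      · rw [nw_lt hlt, hsame g' (by omega) y q hq2 g hlt hq1]
    · by_cases hlt' : C.level g' < t
      · rw [nw_lt hlt', hsame g (by omega) y q hq1 g' hlt' hq2]
      · by_cases hex : ∃ g2, C.level g2 < t ∧
            qry (C.gate g2) (ov ρ y) (fun h => F h y) = some q
        · obtain ⟨g2, hg2, hq3⟩ := hex
          rw [hsame g (by omega) y q hq1 g2 hg2 hq3, hsame g' (by omega) y q hq2 g2 hg2 hq3]
        · have h1 := hnone g (by omega) y q hq1 hex
          have h2 := hnone g' (by omega) y q hq2 hex
          rw [Bool.eq_iff_iff, h1, h2]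

/-- the values come from an oracle -/
theorem Sem.oracle {ρ : Restr (Fin n)} {F : Fin s → (Fin n → Bool) → Bool}
    (h : Sem C Y Z d ρ F) (hYZ : ∀ m a, Y m a → Z m a → False) (y : Fin n → Bool) :
    ∃ O : Oracle l, Solves O Y Z ∧ C.Run O (ov ρ y) fun g => F g y := by
  refine ⟨fun m a => if ∃ g, qry (C.gate g) (ov ρ y) (fun h => F h y) = some ⟨m, a⟩ then
    decide (∃ g, qry (C.gate g) (ov ρ y) (fun h => F h y) = some ⟨m, a⟩ ∧ F g y = true)
    else decide (Y m a), ?_, ?_⟩
  · intro m a
    by_cases hex : ∃ g, qry (C.gate g) (ov ρ y) (fun h => F h y) = some ⟨m, a⟩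
    · simp only [hex, if_true]
      constructor
      · intro hY
        rw [decide_eq_true_eq]
        obtain ⟨g, hg⟩ := hex
        exact ⟨g, hg, (h.prom g (C.level_lt g) y _ hg).1 hY⟩
      · intro hZ
        rw [decide_eq_false_iff_not]
        rintro ⟨g, hg, hv⟩
        rw [(h.prom g (C.level_lt g) y _ hg).2 hZ] at hv
        exact absurd hv (by simp)
    · simp only [hex, if_false]
      constructor
      · intro hY
        rw [decide_eq_true_eq]
        exact hY
      · intro hZ
        rw [decide_eq_false_iff_not]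
        exact fun hY => hYZ m a hY hZ
  · intro g
    have hord := h.ord g (C.level_lt g)
    have hcons := h.cons g
    cases hG : C.gate g with
    | and S =>
      have h1 := hord (by rw [hG]; exact id) y
      rw [hG] at h1
      show (F g y = true ↔ ∀ u ∈ S, Sum.elim (ov ρ y) (fun g => F g y) u = true)
      rw [h1]
      unfold ordv
      simp only [decide_eq_true_eq]
    | or S =>
      have h1 := hord (by rw [hG]; exact id) y
      rw [hG] at h1
      show (F g y = true ↔ ∃ u ∈ S, Sum.elim (ov ρ y) (fun g => F g y) u = true)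
      rw [h1]
      unfold ordv
      simp only [decide_eq_true_eq]
    | not u =>
      have h1 := hord (by rw [hG]; exact id) y
      rw [hG] at h1
      exact h1
    | ask m w =>
      have hqg : qry (C.gate g) (ov ρ y) (fun h => F h y) =
          some ⟨m, fun i c => Sum.elim (ov ρ y) (fun g => F g y) (w i c)⟩ := by
        rw [hG]
        rfl
      show F g y = if ∃ g', qry (C.gate g') (ov ρ y) (fun h => F h y) =
          some ⟨m, fun i c => Sum.elim (ov ρ y) (fun g => F g y) (w i c)⟩ then
        decide (∃ g', qry (C.gate g') (ov ρ y) (fun h => F h y) =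
          some ⟨m, fun i c => Sum.elim (ov ρ y) (fun g => F g y) (w i c)⟩ ∧ F g' y = true)
        else decide (Y m fun i c => Sum.elim (ov ρ y) (fun g => F g y) (w i c))
      rw [if_pos ⟨g, hqg⟩]
      cases hv : F g y
      · symm
        rw [decide_eq_false_iff_not]
        rintro ⟨g', hg', hv'⟩
        have := hcons g' (C.level_lt g) (C.level_lt g') y _ hqg hg'
        rw [hv, hv'] at this
        exact absurd this (by simp)
      · symm
        rw [decide_eq_true_eq]
        exact ⟨g, hqg, hv⟩

end Pool.Agent.N587.OT
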