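import Pool.Agent.N587.OT.Jun

set_option autoImplicit false
set_option linter.unusedSectionVars false

/-!
The step of the induction on the levels.
-/

namespace Pool.Agent.N587.OT

open Finset H568R2

open scoped Classical

variable {n s l d : ℕ} {C : OCircuit n s l d}
  {Y Z : (m : ℕ) → (Fin m → Fin l → Bool) → Prop}

/-- the size of the juntas after the first restriction -/
def K1 (a K : ℕ) : ℕ := Ks (2 * K) (2 * a + 4)

/-- the size of the certificates before the third restriction -/
def K2 (a K : ℕ) : ℕ := 2 * K1 a K + (a + 10)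

/-- the size of the juntas after the third restriction -/
def K3 (a K : ℕ) : ℕ := Ks (K2 a K) (2 * a + 8)

/-- the size of the juntas for the next level -/
def nextK (a K : ℕ) : ℕ := 3 * K3 a K

theorem K1_ge (a K : ℕ) : 2 * K ≤ K1 a K := Ks_ge _ _ (by omega)

theorem K3_ge (a K : ℕ) : K1 a K ≤ K3 a K := by
  have h1 : K2 a K ≤ K3 a K := Ks_ge _ _ (by omega)
  unfold K2 at h1
  omega

/-- the raw answers of all oracle gates of level `t` -/
theorem raw_all {t K : ℕ} (hK : 1 ≤ K) {ρ : Restr (Fin n)}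
    {F : Fin s → (Fin n → Bool) → Bool} (hF : ∀ g, C.level g < t → Junta K (F g))
    {γ : ℝ} (hγ : 0 < γ)
    (hgap : ∀ m b c, Y m b → Z m c → γ * m ≤ ((univ.filter fun i => b i ≠ c i).card : ℝ))
    (hpos : ∀ m b, Y m b → 0 < m) {J b : ℕ} (hJ : 0 < J)
    (hb : 4 * (J : ℝ) * (l * K : ℕ) ≤ γ * b) :
    ∃ P : Fin s → Finset (Fin n), (∀ g, (P g).card ≤ b) ∧
      ∀ τ : Restr (Fin n), (st τ).card = J →
        ∃ r : Fin s → (Fin n → Bool) → Bool, ∀ g, C.level g = t →
          DepOn (r g) (P g ∩ st τ) ∧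
          ∀ y q, qry (C.gate g) (ov (cmp ρ τ) y) (fun h => rs (F h) τ y) = some q →
            (Y q.1 q.2 → r g y = true) ∧ (Z q.1 q.2 → r g y = false) := by
  -- one gate at a time
  have key : ∀ g : Fin s, ∃ P : Finset (Fin n), P.card ≤ b ∧
      ∀ τ : Restr (Fin n), (st τ).card = J → ∃ r : (Fin n → Bool) → Bool, C.level g = t →
          DepOn r (P ∩ st τ) ∧
          ∀ y q, qry (C.gate g) (ov (cmp ρ τ) y) (fun h => rs (F h) τ y) = some q →
            (Y q.1 q.2 → r y = true) ∧ (Z q.1 q.2 → r y = false) := by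
    intro g
    by_cases hask : C.level g = t ∧ ∃ m w, C.gate g = Gate.ask m w
    swap
    · refine ⟨∅, by simp, fun τ _ => ⟨fun _ => false, fun hg => ⟨fun x y _ => rfl, ?_⟩⟩⟩
      intro y q hq
      exfalso
      apply hask
      refine ⟨hg, ?_⟩
      cases hG : C.gate g with
      | and S => rw [hG] at hq; simp [qry] at hq
      | or S => rw [hG] at hq; simp [qry] at hq
      | not u => rw [hG] at hq; simp [qry] at hq
      | ask m w => exact ⟨m, w, rfl⟩
    · obtain ⟨hg, m, w, hw⟩ := hask
      have hq0 : ∀ (x : Fin n → Bool) (v : Fin s → Bool) (q : Σ m, Fin m → Fin l → Bool),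
          qry (C.gate g) x v = some q → q = ⟨m, fun i c => Sum.elim x v (w i c)⟩ := by
        intro x v q hq
        rw [hw] at hq
        exact (Option.some.inj hq).symm
      rcases Nat.eq_zero_or_pos m with hm | hm
      · refine ⟨∅, by simp, fun τ _ => ⟨fun _ => false, fun _ => ⟨fun x y _ => rfl, ?_⟩⟩⟩
        intro y q hq
        have hqq := hq0 _ _ _ hq
        refine ⟨fun hY => ?_, fun _ => rfl⟩
        have h1 := hpos _ _ hY
        have h2 : q.1 = m := by rw [hqq]
        omega
      · have hj : ∀ i c, Junta K fun y => Sum.elim (ov ρ y) (fun h => F h y) (w i c) := by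
          intro i c
          apply node_junta hK hF
          apply read_lt (le_of_eq hg)
          rw [hw]
          exact ⟨i, c, rfl⟩
        choose A hA hAD using hj
        obtain ⟨D, hDd⟩ : ∃ D : Fin m → Finset (Fin n), D = fun i => univ.biUnion fun c => A i c :=
          ⟨_, rfl⟩
        have hDc : ∀ i, (D i).card ≤ l * K := by
          intro i
          rw [hDd]
          refine card_biUnion_le.trans ?_
          refine (sum_le_card_nsmul _ _ _ fun c _ => hA i c).trans ?_
          rw [card_univ, Fintype.card_fin, smul_eq_mul]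
        refine ⟨_, pop_card hm D hDc hγ hb, ?_⟩
        intro τ hτ
        obtain ⟨r, hr1, hr2⟩ := raw hm (fun y i c =>
          Sum.elim (ov ρ (ov τ y)) (fun h => F h (ov τ y)) (w i c)) D (st τ) (by
            intro i y y' hyy
            funext c
            apply hAD i c
            intro j hj
            have hjD : j ∈ D i := by
              rw [hDd]
              exact mem_biUnion.2 ⟨c, mem_univ _, hj⟩
            by_cases hjs : j ∈ st τ
            · have h1 := hyy j (mem_inter.2 ⟨hjD, hjs⟩)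
              show (τ j).getD (y j) = (τ j).getD (y' j)
              rw [h1]
            · rw [mem_st] at hjs
              show (τ j).getD (y j) = (τ j).getD (y' j)
              cases hτj : τ j with
              | none => exact absurd hτj hjs
              | some b => rfl) (by rw [hτ]; exact hJ) hγ (hgap m) _ rfl
        refine ⟨r, fun _ => ⟨?_, ?_⟩⟩
        · rw [hτ] at hr1
          exact hr1
        · intro y q hq
          have hqq := hq0 _ _ _ hq
          rw [ov_cmp] at hqq
          rw [hqq]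
          exact hr2 y
  choose P hP1 hP2 using key
  refine ⟨P, hP1, fun τ hτ => ?_⟩
  choose r hr using fun g => hP2 g τ hτ
  exact ⟨r, hr⟩

/-- **the step** -/
theorem step {t a K L : ℕ} (hK : 1 ≤ K) (ht : t < d) (hs : s ≤ L ^ a) (hl : l ≤ L)
    (hL1 : (3 * 4 ^ K2 a K) ^ 2 ≤ L) (hL2 : 4 * K1 a K ≤ L)
    {ρ : Restr (Fin n)} (hst : L ^ 16 ≤ (st ρ).card)
    {F : Fin s → (Fin n → Bool) → Bool} (hF : ∀ g, C.level g < t → Junta K (F g))
    (hsem : Sem C Y Z t ρ F) {γ : ℝ} (hγ : 1 ≤ γ * L)
    (hgap : ∀ m b c, Y m b → Z m c → γ * m ≤ ((univ.filter fun i => b i ≠ c i).card : ℝ))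
    (hpos : ∀ m b, Y m b → 0 < m) :
    ∃ (ρ' : Restr (Fin n)) (F' : Fin s → (Fin n → Bool) → Bool), L ≤ (st ρ').card ∧
      (∀ g, C.level g < t + 1 → Junta (nextK a K) (F' g)) ∧ Sem C Y Z (t + 1) ρ' F' := by
  have hK2K : 2 * K ≤ K2 a K := by
    have := K1_ge a K
    unfold K2
    omega
  have hL9 : 9 ≤ L := by
    have h1 : 1 ≤ 4 ^ K2 a K := Nat.one_le_pow _ _ (by norm_num)
    have h2 : 3 ≤ 3 * 4 ^ K2 a K := by omega
    have h3 : 3 ^ 2 ≤ (3 * 4 ^ K2 a K) ^ 2 := Nat.pow_le_pow_left h2 2
    omega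
  have hLr : (9 : ℝ) ≤ L := by exact_mod_cast hL9
  have hL0 : (0 : ℝ) < L := by linarith
  have hγ0 : 0 < γ := by
    by_contra h
    push Not at h
    have : γ * L ≤ 0 := mul_nonpos_of_nonpos_of_nonneg h hL0.le
    linarith
  have hstr : (L : ℝ) ^ 16 ≤ ((st ρ).card : ℝ) := by exact_mod_cast hst
  have hsr : (s : ℝ) ≤ (L : ℝ) ^ a := by exact_mod_cast hs
  have hbig : (3 * 4 ^ K2 a K : ℝ) ^ 2 ≤ L := by exact_mod_cast hL1
  -- the first restriction
  obtain ⟨τ1, hτ1, hst1⟩ := restr_family (ι := Fin s ⊕ Fin s × Fin s)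
    (fun j => match j with
      | Sum.inl g => if C.level g ≤ t then (fun y => ordv (C.gate g) (ov ρ y) fun h => F h y)
          else fun _ => false
      | Sum.inr (g, g') => if C.level g ≤ t ∧ C.level g' ≤ t then ef C ρ F g g'
          else fun _ => false) (c := 2 * K) (by
      rintro (g | ⟨g, g'⟩)
      · by_cases hg : C.level g ≤ t
        · obtain ⟨b, hb⟩ := ord_cert hK hF hg
          refine ⟨b, cert_mono ?_ (show K ≤ 2 * K by omega)⟩
          simp only [hg, if_true]
          exact hb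
        · refine ⟨true, ?_⟩
          simp only [hg, if_false]
          exact fun x hx => absurd hx (by simp)
      · by_cases hg : C.level g ≤ t ∧ C.level g' ≤ t
        · refine ⟨false, ?_⟩
          simp only [hg, and_self, if_true]
          exact ef_cert hK hF hg.1 hg.2
        · refine ⟨true, ?_⟩
          simp only [hg, if_false]
          exact fun x hx => absurd hx (by simp)) ρ (q := 1 / (L : ℝ) ^ 2) (by positivity) (by
      rw [div_le_div_iff₀ (by positivity) (by norm_num)]
      nlinarith) (by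
      have : 0 < L ^ 16 := by positivity
      omega) (k := 2 * a + 4) (by
      -- the union bound
      have e1 : (Fintype.card (Fin s ⊕ Fin s × Fin s) : ℝ) ≤ 2 * (L : ℝ) ^ (2 * a) := by
        rw [Fintype.card_sum, Fintype.card_prod, Fintype.card_fin]
        push_cast
        have h1 : (1 : ℝ) ≤ (L : ℝ) ^ a := one_le_pow₀ (by linarith)
        have h2 : (L : ℝ) ^ (2 * a) = (L : ℝ) ^ a * (L : ℝ) ^ a := by
          rw [two_mul, pow_add]
        have h3 : (0 : ℝ) ≤ s := Nat.cast_nonneg _
        rw [h2]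
        have h4 : (s : ℝ) * s ≤ (L : ℝ) ^ a * (L : ℝ) ^ a := mul_le_mul hsr hsr h3 (by positivity)
        have h5 : (L : ℝ) ^ a ≤ (L : ℝ) ^ a * (L : ℝ) ^ a := by nlinarith
        linarith
      have e2 : (4 : ℝ) ^ (2 * K) * (3 * (1 / (L : ℝ) ^ 2)) ≤ 1 / L := by
        have h1 : (4 : ℝ) ^ (2 * K) ≤ 4 ^ K2 a K := pow_le_pow_right₀ (by norm_num) hK2K
        have h2 : (1 : ℝ) ≤ 3 * 4 ^ K2 a K := by
          have : (1 : ℝ) ≤ 4 ^ K2 a K := one_le_pow₀ (by norm_num)
          linarith
        have h3 : (3 * 4 ^ K2 a K : ℝ) ≤ L := by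
          refine le_trans ?_ hbig
          nlinarith
        rw [show (4 : ℝ) ^ (2 * K) * (3 * (1 / (L : ℝ) ^ 2)) = (3 * 4 ^ (2 * K)) / (L : ℝ) ^ 2 by
          ring, div_le_div_iff₀ (by positivity) hL0]
        nlinarith
      have e3 : ((4 : ℝ) ^ (2 * K) * (3 * (1 / (L : ℝ) ^ 2))) ^ (2 * a + 4) ≤
          (1 / (L : ℝ)) ^ (2 * a + 4) := pow_le_pow_left₀ (by positivity) e2 _
      have e4 : 2 * (L : ℝ) ^ (2 * a) * (1 / (L : ℝ)) ^ (2 * a + 4) = 2 / (L : ℝ) ^ 4 := by
        rw [one_div, inv_pow, pow_add]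
        field_simp
      calc _ ≤ 2 * (L : ℝ) ^ (2 * a) * (1 / (L : ℝ)) ^ (2 * a + 4) :=
            mul_le_mul e1 e3 (by positivity) (by positivity)
        _ = 2 / (L : ℝ) ^ 4 := e4
        _ ≤ 1 / (L : ℝ) ^ 2 / 2 := by
            rw [div_div, div_le_div_iff₀ (by positivity) (by positivity)]
            have : (81 : ℝ) ≤ (L : ℝ) ^ 2 := by nlinarith
            nlinarith [pow_pos hL0 2])
  have hord1 : ∀ g, C.level g ≤ t →
      Junta (K1 a K) (rs (fun y => ordv (C.gate g) (ov ρ y) fun h => F h y) τ1) := by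
    intro g hg
    have := hτ1 (Sum.inl g)
    simp only [hg, if_true] at this
    exact this
  have hef1 : ∀ g g', C.level g ≤ t → C.level g' ≤ t →
      Junta (K1 a K) (rs (ef C ρ F g g') τ1) := by
    intro g g' hg hg'
    have := hτ1 (Sum.inr (g, g'))
    simp only [hg, hg', and_self, if_true] at this
    exact this
  have hcard1 : (L : ℝ) ^ 13 ≤ ((st (cmp ρ τ1)).card : ℝ) := by
    refine le_trans ?_ hst1
    have h1 : (L : ℝ) ^ 16 * (1 / (L : ℝ) ^ 2) / 4 ≤ ((st ρ).card : ℝ) * (1 / (L : ℝ) ^ 2) / 4 := by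
      apply div_le_div_of_nonneg_right _ (by norm_num)
      exact mul_le_mul_of_nonneg_right hstr (by positivity)
    refine le_trans ?_ h1
    have h2 : (L : ℝ) ^ 16 * (1 / (L : ℝ) ^ 2) / 4 = (L : ℝ) ^ 13 * (L / 4) := by
      field_simp
    rw [h2]
    have h3 : (1 : ℝ) ≤ L / 4 := by linarith
    have h4 : (0 : ℝ) < (L : ℝ) ^ 13 := by positivity
    nlinarith
  -- the second restriction
  have hF1 : ∀ g, C.level g < t → Junta (K1 a K) (rs (F g) τ1) := by
    intro g hg
    exact ((hF g hg).rs τ1).mono (by have := K1_ge a K; omega)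
  have hsem1 := hsem.restrict τ1
  have hK1 : 1 ≤ K1 a K := by have := K1_ge a K; omega
  obtain ⟨b, hb⟩ : ∃ b : ℕ, b = L ^ 6 := ⟨_, rfl⟩
  obtain ⟨P, hP1, hP2⟩ := raw_all (J := L ^ 3) (b := b) hK1 hF1 hγ0 hgap hpos (by positivity) (by
    rw [hb]
    push_cast
    have h1 : (l : ℝ) ≤ L := by exact_mod_cast hl
    have h2 : (4 : ℝ) * K1 a K ≤ L := by exact_mod_cast hL2
    calc 4 * (L : ℝ) ^ 3 * (l * K1 a K) = (4 * K1 a K) * l * (L : ℝ) ^ 3 := by ring
      _ ≤ L * L * (L : ℝ) ^ 3 := by
          apply mul_le_mul_of_nonneg_right _ (by positivity)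
          exact mul_le_mul h2 h1 (by positivity) (by positivity)
      _ = 1 * (L : ℝ) ^ 5 := by ring
      _ ≤ γ * L * (L : ℝ) ^ 5 := mul_le_mul_of_nonneg_right hγ (by positivity)
      _ = γ * (L : ℝ) ^ 6 := by ring)
  obtain ⟨τ2, hpop, hsub2, hcard2⟩ := restr_pop P hP1 (cmp ρ τ1) (q := 1 / (L : ℝ) ^ 9)
    (by positivity) (by
      rw [div_le_div_iff₀ (by positivity) (by norm_num)]
      have : (9 : ℝ) ≤ (L : ℝ) ^ 9 := by
        calc (9 : ℝ) ≤ L := hLr
          _ = (L : ℝ) ^ 1 := by ring
          _ ≤ (L : ℝ) ^ 9 := pow_le_pow_right₀ (by linarith) (by norm_num)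
      linarith) (by
      have h1 : (0 : ℝ) < ((st (cmp ρ τ1)).card : ℝ) := lt_of_lt_of_le (by positivity) hcard1
      exact_mod_cast h1) (k := a + 10) (by
      have e1 : (b : ℝ) * (1 / (L : ℝ) ^ 9) = (1 / (L : ℝ)) ^ 3 := by
        rw [hb]
        push_cast
        field_simp
      rw [Fintype.card_fin, e1, ← pow_mul]
      have e2 : (1 / (L : ℝ)) ^ (3 * (a + 10)) ≤ (1 / (L : ℝ)) ^ (a + 10) := by
        apply pow_le_pow_of_le_one (by positivity)
        · rw [div_le_one hL0]
          linarith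
        · omega
      calc (s : ℝ) * (1 / (L : ℝ)) ^ (3 * (a + 10)) ≤ (L : ℝ) ^ a * (1 / (L : ℝ)) ^ (a + 10) :=
            mul_le_mul hsr e2 (by positivity) (by positivity)
        _ = 1 / (L : ℝ) ^ 10 := by
            rw [one_div, inv_pow, pow_add]
            field_simp
        _ ≤ 1 / (L : ℝ) ^ 9 / 2 := by
            rw [div_div, div_le_div_iff₀ (by positivity) (by positivity)]
            have : (0 : ℝ) < (L : ℝ) ^ 9 := by positivity
            nlinarith) (m := L ^ 3) (by
      push_cast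
      have h1 : (L : ℝ) ^ 13 * (1 / (L : ℝ) ^ 9) / 4 ≤
          ((st (cmp ρ τ1)).card : ℝ) * (1 / (L : ℝ) ^ 9) / 4 := by
        apply div_le_div_of_nonneg_right _ (by norm_num)
        exact mul_le_mul_of_nonneg_right hcard1 (by positivity)
      refine le_trans ?_ h1
      have h2 : (L : ℝ) ^ 13 * (1 / (L : ℝ) ^ 9) / 4 = (L : ℝ) ^ 3 * (L / 4) := by
        field_simp
      rw [h2]
      have h3 : (1 : ℝ) ≤ L / 4 := by linarith
      have h4 : (0 : ℝ) < (L : ℝ) ^ 3 := by positivity
      nlinarith)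
  obtain ⟨r, hr⟩ := hP2 τ2 hcard2
  obtain ⟨ρ2, hρ2⟩ : ∃ ρ2, ρ2 = cmp (cmp ρ τ1) τ2 := ⟨_, rfl⟩
  obtain ⟨F2, hF2⟩ : ∃ F2 : Fin s → (Fin n → Bool) → Bool, F2 = fun g => rs (rs (F g) τ1) τ2 :=
    ⟨_, rfl⟩
  have hst2 : (st ρ2).card = L ^ 3 := by
    rw [← hcard2, hρ2, st_cmp]
    congr 1
    exact inter_eq_right.2 hsub2
  have hsem2 : Sem C Y Z t ρ2 F2 := by
    rw [hρ2, hF2]
    exact hsem1.restrict τ2
  have hF2j : ∀ g, C.level g < t → Junta (K1 a K) (F2 g) := by
    intro g hg
    rw [hF2]
    exact (hF1 g hg).rs τ2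
  have hord2 : ∀ g, C.level g ≤ t →
      Junta (K1 a K) fun y => ordv (C.gate g) (ov ρ2 y) fun h => F2 h y := by
    intro g hg
    have h1 := (hord1 g hg).rs τ2
    have h2 : (fun y => ordv (C.gate g) (ov ρ2 y) fun h => F2 h y) =
        rs (rs (fun y => ordv (C.gate g) (ov ρ y) fun h => F h y) τ1) τ2 := by
      funext y
      rw [hρ2, hF2, ov_cmp, ov_cmp]
      rfl
    rw [h2]
    exact h1
  have hef2 : ∀ g g', C.level g ≤ t → C.level g' ≤ t → Junta (K1 a K) (ef C ρ2 F2 g g') := by
    intro g g' hg hg'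
    have h1 := (hef1 g g' hg hg').rs τ2
    have h2 : ef C ρ2 F2 g g' = rs (rs (ef C ρ F g g') τ1) τ2 := by
      funext y
      unfold ef
      rw [hρ2, hF2, ov_cmp, ov_cmp]
      rfl
    rw [h2]
    exact h1
  have hrj : ∀ g, C.level g = t → Junta (a + 10) (r g) :=
    fun g hg => ⟨P g ∩ st τ2, (hpop g).le, (hr g hg).1⟩
  have hsem3 : Sem C Y Z (t + 1) ρ2 (nw C t ρ2 F2 r) := by
    apply sem_step hsem2
    intro g hg y q hq
    rw [hρ2, hF2] at hq
    exact (hr g hg).2 y q hq
  -- the third restriction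
  obtain ⟨τ3, hτ3, hst3⟩ := restr_family (ι := Fin s × Fin 3)
    (fun p => if C.level p.1 = t then
      (if p.2 = 0 then A1 C t ρ2 F2 p.1 else if p.2 = 1 then A2 C t ρ2 F2 p.1
        else A3 C t ρ2 F2 r p.1) else fun _ => false) (c := K2 a K) (by
      rintro ⟨g, i⟩
      by_cases hg : C.level g = t
      swap
      · refine ⟨true, ?_⟩
        simp only [hg, if_false]
        exact fun x hx => absurd hx (by simp)
      simp only [hg, if_true]
      by_cases hi0 : i = 0
      · refine ⟨true, ?_⟩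
        simp only [hi0, if_true]
        refine cert_exists (fun g' => C.level g' < t) (fun g' y => ef C ρ2 F2 g g' y && F2 g' y)
          ?_ ?_
        · intro g' hg'
          refine (junta_op (fun a b => a && b) (hef2 g g' (by omega) (by omega))
            (hF2j g' hg')).mono ?_
          unfold K2
          omega
        · intro y
          unfold A1
          rw [decide_eq_true_eq]
      · by_cases hi1 : i = 1
        · refine ⟨false, ?_⟩
          simp only [hi1, one_ne_zero, if_false, if_true]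
          refine cert_forall (fun g' => C.level g' < t) (fun g' y => !(ef C ρ2 F2 g g' y)) ?_ ?_
          · intro g' hg'
            refine ((hef2 g g' (by omega) (by omega)).not).mono ?_
            unfold K2
            omega
          · intro y
            unfold A2
            rw [decide_eq_true_eq]
        · refine ⟨true, ?_⟩
          simp only [hi0, hi1, if_false]
          refine cert_exists (fun g' => C.level g' = t) (fun g' y => ef C ρ2 F2 g g' y && r g' y)
            ?_ ?_
          · intro g' hg'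
            refine (junta_op (fun a b => a && b) (hef2 g g' (by omega) (by omega))
              (hrj g' hg')).mono ?_
            unfold K2
            omega
          · intro y
            unfold A3
            rw [decide_eq_true_eq]) ρ2 (q := 1 / (L : ℝ)) (by positivity) (by
      rw [div_le_div_iff₀ hL0 (by norm_num)]
      linarith) (by rw [hst2]; positivity) (k := 2 * a + 8) (by
      rw [Fintype.card_prod, Fintype.card_fin, Fintype.card_fin]
      push_cast
      obtain ⟨z, hz⟩ : ∃ z : ℝ, z = 4 ^ K2 a K * (3 * (1 / (L : ℝ))) := ⟨_, rfl⟩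
      rw [← hz]
      have hz0 : 0 ≤ z := by rw [hz]; positivity
      have e1 : z ^ 2 ≤ 1 / L := by
        rw [hz, show (4 ^ K2 a K * (3 * (1 / (L : ℝ)))) ^ 2 = (3 * 4 ^ K2 a K) ^ 2 / (L : ℝ) ^ 2 by
          ring, div_le_div_iff₀ (by positivity) hL0]
        nlinarith
      have e2 : z ^ (2 * a + 8) ≤ (1 / (L : ℝ)) ^ (a + 4) := by
        rw [show 2 * a + 8 = 2 * (a + 4) by ring, pow_mul]
        exact pow_le_pow_left₀ (by positivity) e1 _
      calc (s : ℝ) * 3 * z ^ (2 * a + 8) ≤ (L : ℝ) ^ a * 3 * (1 / (L : ℝ)) ^ (a + 4) := by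
            apply mul_le_mul _ e2 (by positivity) (by positivity)
            linarith
        _ = 3 / (L : ℝ) ^ 4 := by
            rw [one_div, inv_pow, pow_add]
            field_simp
        _ ≤ 1 / (L : ℝ) / 2 := by
            rw [div_div, div_le_div_iff₀ (by positivity) (by positivity)]
            have h1 : (729 : ℝ) ≤ (L : ℝ) ^ 3 := by
              calc (729 : ℝ) = 9 ^ 3 := by norm_num
                _ ≤ (L : ℝ) ^ 3 := pow_le_pow_left₀ (by norm_num) hLr 3
            have h2 : (L : ℝ) ^ 4 = L * (L : ℝ) ^ 3 := by ring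
            nlinarith)
  refine ⟨cmp ρ2 τ3, fun g => rs (nw C t ρ2 F2 r g) τ3, ?_, ?_, hsem3.restrict τ3⟩
  · rw [hst2] at hst3
    push_cast at hst3
    have h1 : (L : ℝ) ≤ (L : ℝ) ^ 3 * (1 / L) / 4 := by
      rw [show (L : ℝ) ^ 3 * (1 / L) / 4 = L * (L / 4) by field_simp]
      nlinarith
    exact_mod_cast h1.trans hst3
  · intro g hg
    have hK3 := K3_ge a K
    have hK13 : K1 a K ≤ nextK a K := by unfold nextK; omega
    by_cases hlt : C.level g < t
    · have h1 : nw C t ρ2 F2 r g = F2 g := funext fun y => nw_lt hlt y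
      simp only [h1]
      exact ((hF2j g hlt).rs τ3).mono hK13
    · have hgt : C.level g = t := by omega
      by_cases ha : IsAsk (C.gate g)
      · have h1 : nw C t ρ2 F2 r g = fun y =>
            (A1 C t ρ2 F2 g y || (A2 C t ρ2 F2 g y && A3 C t ρ2 F2 r g y)) :=
          funext fun y => nw_ask hlt ha y
        simp only [h1]
        have j1 := hτ3 (g, 0)
        have j2 := hτ3 (g, 1)
        have j3 := hτ3 (g, 2)
        simp only [hgt, if_true] at j1
        simp only [hgt, if_true, one_ne_zero, if_false] at j2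
        simp only [hgt, if_true, show (2 : Fin 3) ≠ 0 by decide, show (2 : Fin 3) ≠ 1 by decide,
          if_false] at j3
        have h2 := junta_op (fun a b => a || b) j1 (junta_op (fun a b => a && b) j2 j3)
        refine (show Junta _ _ from h2).mono ?_
        unfold nextK K3
        omega
      · have h1 : nw C t ρ2 F2 r g = fun y => ordv (C.gate g) (ov ρ2 y) fun h => F2 h y :=
          funext fun y => nw_ord hlt ha y
        simp only [h1]
        exact ((hord2 g hgt.le).rs τ3).mono hK13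

end Pool.Agent.N587.OT
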